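import Pool.Agent.H500.ME.Stm

set_option autoImplicit false

/-!
# Project ME, part C6 (helper295 for helper500): semisimple and commutative on `U`

Without Clifford's theorem: the span `K` of the common eigenvectors of `U` is stable under `G` (`U` is normal); a stable
complement of `K` contains no common eigenvector of `U`, so it is zero.
-/

namespace Pool.Agent.H295.ME.SDG

open Matrix
open Pool.Agent.H500.ZO (SemiS)

section
variable {G : Type} [Group G] {C : Type} [Field C] {n : ℕ} (ρ : G →* GL (Fin n) C)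
  (U : Subgroup G)

/-- common eigenvectors of `U` -/
def Ev (v : Fin n → C) : Prop :=
  ∀ u ∈ U, ∃ c : C, (ρ u : Matrix (Fin n) (Fin n) C) *ᵥ v = c • v

lemma Ev_smul {ρ : G →* GL (Fin n) C} {U : Subgroup G} (hU : U.Normal) (g : G)
    {v : Fin n → C} (hv : Ev ρ U v) : Ev ρ U ((ρ g : Matrix (Fin n) (Fin n) C) *ᵥ v) := by
  intro u hu
  obtain ⟨c, hc⟩ := hv (g⁻¹ * u * g) (by
    have := hU.conj_mem u hu g⁻¹
    rwa [inv_inv] at this)
  refine ⟨c, ?_⟩
  have h1 : (ρ u : Matrix (Fin n) (Fin n) C) * (ρ g : Matrix (Fin n) (Fin n) C) =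
      (ρ g : Matrix (Fin n) (Fin n) C) * (ρ (g⁻¹ * u * g) : Matrix (Fin n) (Fin n) C) := by
    rw [← Units.val_mul, ← Units.val_mul, ← map_mul, ← map_mul]
    congr 2
    group
  rw [Matrix.mulVec_mulVec, h1, ← Matrix.mulVec_mulVec, hc, Matrix.mulVec_smul]

/-- commuting matrices have a common eigenvector in every nonzero stable subspace -/
lemma exists_Ev [IsAlgClosed C] {ρ : G →* GL (Fin n) C} {U : Subgroup G}
    (hcomm : ∀ g ∈ U, ∀ h ∈ U, ρ g * ρ h = ρ h * ρ g) (W : Submodule C (Fin n → C)) (hW : W ≠ ⊥)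
    (hst : ∀ g ∈ U, ∀ v ∈ W, (ρ g : Matrix (Fin n) (Fin n) C) *ᵥ v ∈ W) :
    ∃ v ∈ W, v ≠ 0 ∧ Ev ρ U v := by
  obtain ⟨W1, ⟨h1, h2, h3⟩, hmin⟩ := (wellFounded_lt (α := Submodule C (Fin n → C))).has_min
    {W1 | W1 ≠ ⊥ ∧ W1 ≤ W ∧ ∀ g ∈ U, ∀ v ∈ W1, (ρ g : Matrix (Fin n) (Fin n) C) *ᵥ v ∈ W1}
    ⟨W, hW, le_rfl, hst⟩
  obtain ⟨w, hw, hw0⟩ := (Submodule.ne_bot_iff W1).1 h1
  refine ⟨w, h2 hw, hw0, fun u hu => ?_⟩
  -- the restriction of `ρ u` to `W1`
  let f : Module.End C W1 := (Matrix.toLin' (ρ u : Matrix (Fin n) (Fin n) C)).restrict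
    (fun v hv => by
      rw [Matrix.toLin'_apply]
      exact h3 u hu v hv)
  have hf : ∀ v : W1, ((f v : W1) : Fin n → C) = (ρ u : Matrix (Fin n) (Fin n) C) *ᵥ (v : Fin n → C) := by
    intro v
    show Matrix.toLin' (ρ u : Matrix (Fin n) (Fin n) C) v = _
    rw [Matrix.toLin'_apply]
  have : Nontrivial W1 := ⟨⟨⟨w, hw⟩, 0, fun h => hw0 (congrArg Subtype.val h)⟩⟩
  obtain ⟨c, hc⟩ := Module.End.exists_eigenvalue f
  obtain ⟨x, hx⟩ := hc.exists_hasEigenvector
  have hx1 : (ρ u : Matrix (Fin n) (Fin n) C) *ᵥ (x : Fin n → C) = c • (x : Fin n → C) := by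
    rw [← hf, hx.apply_eq_smul]
    rfl
  have hx0 : (x : Fin n → C) ≠ 0 := fun h => hx.2 (Subtype.ext h)
  -- the eigenspace in `W1`
  let E : Submodule C (Fin n → C) :=
    { carrier := {v | v ∈ W1 ∧ (ρ u : Matrix (Fin n) (Fin n) C) *ᵥ v = c • v}
      add_mem' := fun {a b} ha hb => ⟨W1.add_mem ha.1 hb.1, by
        rw [Matrix.mulVec_add, ha.2, hb.2, smul_add]⟩
      zero_mem' := ⟨W1.zero_mem, by rw [Matrix.mulVec_zero, smul_zero]⟩
      smul_mem' := fun a v hv => ⟨W1.smul_mem a hv.1, by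
        rw [Matrix.mulVec_smul, hv.2, smul_comm]⟩ }
  have hE : E = W1 := by
    by_contra hne
    have hlt : E < W1 := lt_of_le_of_ne (fun v hv => hv.1) hne
    refine hmin E ⟨?_, fun v hv => h2 hv.1, fun g hg v hv => ⟨h3 g hg v hv.1, ?_⟩⟩ hlt
    · rw [Submodule.ne_bot_iff]
      exact ⟨x, ⟨x.2, hx1⟩, hx0⟩
    · have h4 : (ρ u : Matrix (Fin n) (Fin n) C) * (ρ g : Matrix (Fin n) (Fin n) C) =
          (ρ g : Matrix (Fin n) (Fin n) C) * (ρ u : Matrix (Fin n) (Fin n) C) := by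
        rw [← Units.val_mul, ← Units.val_mul, hcomm u hu g hg]
      rw [Matrix.mulVec_mulVec, h4, ← Matrix.mulVec_mulVec, hv.2, Matrix.mulVec_smul]
  have hwE : w ∈ E := by rw [hE]; exact hw
  exact ⟨c, hwE.2⟩

end

/-- **PART C6.** -/
theorem main : Pool.Agent.H500.ME.S_SDG := by
  intro G _ U n C _ _ ρ hU _ hss hcomm
  classical
  let S : Set (Fin n → C) := {v | Ev ρ U v}
  let K : Submodule C (Fin n → C) := Submodule.span C S
  have hK : ∀ g, ∀ v ∈ K, (ρ g : Matrix (Fin n) (Fin n) C).mulVec v ∈ K := by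
    intro g v hv
    induction hv using Submodule.span_induction with
    | mem x hx => exact Submodule.subset_span (Ev_smul hU g hx)
    | zero => rw [Matrix.mulVec_zero]; exact K.zero_mem
    | add x y _ _ hx hy => rw [Matrix.mulVec_add]; exact K.add_mem hx hy
    | smul a x _ hx => rw [Matrix.mulVec_smul]; exact K.smul_mem a hx
  obtain ⟨W', hW', hcompl⟩ := hss K hK
  have hbot : W' = ⊥ := by
    by_contra hne
    obtain ⟨v, hv, hv0, hE⟩ := exists_Ev hcomm W' hne (fun g _ v hv => hW' g v hv)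
    apply hv0
    have h1 : v ∈ K ⊓ W' := ⟨Submodule.subset_span hE, hv⟩
    rw [hcompl.inf_eq_bot] at h1
    exact (Submodule.mem_bot C).1 h1
  have htop : K = ⊤ := by
    have h1 := hcompl.sup_eq_top
    rwa [hbot, sup_bot_eq] at h1
  obtain ⟨b, hbS, hbspan, hbli⟩ := exists_linearIndependent C S
  let B : Module.Basis b C (Fin n → C) := Module.Basis.mk hbli (by
    rw [Subtype.range_coe, hbspan]
    exact htop.ge)
  have : Fintype b := FiniteDimensional.fintypeBasisIndex B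
  have hcard : Fintype.card b = n := by
    have h1 := Module.finrank_eq_card_basis B
    rw [Module.finrank_fintype_fun_eq_card, Fintype.card_fin] at h1
    exact h1.symm
  let e : b ≃ Fin n := Fintype.equivFinOfCardEq hcard
  let q : Fin n → Fin n → C := fun j => (e.symm j : Fin n → C)
  have hq : LinearIndependent C q := hbli.comp e.symm e.symm.injective
  have hqE : ∀ j, Ev ρ U (q j) := fun j => hbS (e.symm j).2
  let Qm : Matrix (Fin n) (Fin n) C := Matrix.of fun i j => q j i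
  have hunit : IsUnit Qm := by
    rw [← Matrix.linearIndependent_cols_iff_isUnit]
    exact hq
  obtain ⟨Q, hQ⟩ := hunit
  refine ⟨Q, fun u hu => ?_⟩
  choose c hc using fun j => hqE j u hu
  have h1 : (ρ u : Matrix (Fin n) (Fin n) C) * Qm = Qm * Matrix.diagonal c := by
    ext i j
    rw [Matrix.mul_diagonal]
    have h2 := congrFun (hc j) i
    rw [Pi.smul_apply, smul_eq_mul] at h2
    show ∑ k, (ρ u : Matrix (Fin n) (Fin n) C) i k * q j k = q j i * c j
    rw [mul_comm (q j i), ← h2]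
    rfl
  have h3 : ((Q⁻¹ * ρ u * Q : GL (Fin n) C) : Matrix (Fin n) (Fin n) C) = Matrix.diagonal c := by
    rw [Units.val_mul, Units.val_mul, mul_assoc, hQ, h1, ← hQ, ← mul_assoc, Units.inv_mul, one_mul]
  rw [h3]
  exact Matrix.isDiag_diagonal c

end Pool.Agent.H295.ME.SDG
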